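import Pool.Agent.P8H79.RC.Stm

/-!
# Project RC, parts CARD and CYC
-/

set_option autoImplicit false
set_option linter.all false

namespace Pool.Agent.P8H59.RC

open Finset
open Pool.Agent.P8H79.RC
open Pool.Agent.H255R3.STC (IsChordal cycle_adj)

theorem cnt_le {V : Type} [Fintype V] (G : SimpleGraph V) (q : ℕ) :
    cnt G q ≤ q ^ Fintype.card V := by
  classical
  unfold cnt
  have h : Nat.card (V → Fin q) = q ^ Fintype.card V := by
    rw [Nat.card_eq_fintype_card, Fintype.card_fun, Fintype.card_fin]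
  rw [← h]
  exact Nat.card_le_card_of_injective (fun c : G.Coloring (Fin q) => (fun v => c v)) (by
    intro c d hcd
    ext v
    exact congrArg Fin.val (congrFun hcd v))

theorem le_cnt {V : Type} [Fintype V] (G : SimpleGraph V) (q : ℕ) :
    q.descFactorial (Fintype.card V) ≤ cnt G q := by
  classical
  unfold cnt
  have hfin : Finite (G.Coloring (Fin q)) := by
    refine Finite.of_injective (fun c : G.Coloring (Fin q) => (fun v => c v)) (by
      intro c d hcd
      ext v
      exact congrArg Fin.val (congrFun hcd v))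
  have h : Nat.card (V ↪ Fin q) = q.descFactorial (Fintype.card V) := by
    rw [Nat.card_eq_fintype_card, Fintype.card_embedding_eq, Fintype.card_fin]
  rw [← h]
  exact Nat.card_le_card_of_injective
    (fun f : V ↪ Fin q => SimpleGraph.Coloring.mk (fun v => f v)
      (fun {a b} hab => f.injective.ne hab.ne)) (by
    intro f g hfg
    ext v
    have := congrArg (fun c : G.Coloring (Fin q) => c v) hfg
    exact congrArg Fin.val this)

theorem key_ineq (a b : ℕ) (hab : a < b) :
    (2 * b * b) ^ a < (2 * b * b).descFactorial b := by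
  have hb : 1 ≤ b := by omega
  refine lt_of_lt_of_le ?_ (Nat.pow_sub_le_descFactorial (2 * b * b) b)
  have hle : b ≤ 2 * b * b + 1 := by nlinarith
  have h1 : (2 * b * b) ^ a ≤ (2 * b * b) ^ (b - 1) :=
    Nat.pow_le_pow_right (by nlinarith) (by omega)
  refine lt_of_le_of_lt h1 ?_
  have hbR : (1 : ℝ) ≤ b := by exact_mod_cast hb
  have hQ : (0 : ℝ) < 2 * b * b := by positivity
  have h2 : ((2 * b * b : ℕ) : ℝ) ^ (b - 1) < ((2 * b * b + 1 - b : ℕ) : ℝ) ^ b := by
    rw [Nat.cast_sub hle]
    push_cast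
    have h3 := one_add_mul_le_pow (a := -(((b : ℝ) - 1) / (2 * b * b))) (by
      have : ((b : ℝ) - 1) / (2 * b * b) ≤ 2 := by
        rw [div_le_iff₀ hQ]; nlinarith
      linarith) b
    have h4 : (1 : ℝ) / 2 < 1 + b * -(((b : ℝ) - 1) / (2 * b * b)) := by
      have : (b : ℝ) * (((b : ℝ) - 1) / (2 * b * b)) < 1 / 2 := by
        rw [← mul_div_assoc, div_lt_iff₀ hQ]; nlinarith
      linarith
    have h5 : (2 * (b : ℝ) * b + 1 - b) = (2 * b * b) * (1 + -(((b : ℝ) - 1) / (2 * b * b))) := by
      field_simp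
      ring
    rw [h5, mul_pow (2 * (b : ℝ) * b) _ b]
    have h6 : (2 * (b : ℝ) * b) ^ b = (2 * (b : ℝ) * b) ^ (b - 1) * (2 * b * b) := by
      rw [← pow_succ]; congr 1; omega
    rw [h6]
    have h7 : (0 : ℝ) < (2 * (b : ℝ) * b) ^ (b - 1) := by positivity
    have h8 : 1 < (2 * (b : ℝ) * b) * (1 + -(((b : ℝ) - 1) / (2 * b * b))) ^ b := by
      have : (1 : ℝ) / 2 < (1 + -(((b : ℝ) - 1) / (2 * b * b))) ^ b := lt_of_lt_of_le h4 h3
      nlinarith
    calc (2 * (b : ℝ) * b) ^ (b - 1) = (2 * (b : ℝ) * b) ^ (b - 1) * 1 := by ring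
      _ < (2 * (b : ℝ) * b) ^ (b - 1) *
        ((2 * (b : ℝ) * b) * (1 + -(((b : ℝ) - 1) / (2 * b * b))) ^ b) := by gcongr
      _ = _ := by ring
  exact_mod_cast h2

/-- **CARD** -/
theorem card : S_CARD := by
  intro V W _ _ G H h
  rcases lt_trichotomy (Fintype.card V) (Fintype.card W) with h1 | h1 | h1
  · exfalso
    have h2 := key_ineq _ _ h1
    have h3 := cnt_le G (2 * Fintype.card W * Fintype.card W)
    have h4 := le_cnt H (2 * Fintype.card W * Fintype.card W)
    rw [← h] at h4
    omega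
  · exact h1
  · exfalso
    have h2 := key_ineq _ _ h1
    have h3 := cnt_le H (2 * Fintype.card V * Fintype.card V)
    have h4 := le_cnt G (2 * Fintype.card V * Fintype.card V)
    rw [h] at h4
    omega

/-! ### cycles -/

/-- proper colourings of a path with `l + 1` vertices -/
abbrev Pth (q l : ℕ) : Type := {f : Fin (l + 1) → Fin q // ∀ i : Fin l, f i.castSucc ≠ f i.succ}

noncomputable def pthEquiv (q l : ℕ) :
    Pth q (l + 1) ≃ Σ g : Pth q l, {c : Fin q // c ≠ g.1 (Fin.last l)} where
  toFun f := ⟨⟨fun i => f.1 i.castSucc, fun i => by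
      have := f.2 i.castSucc
      rwa [Fin.succ_castSucc] at this⟩,
    ⟨f.1 (Fin.last (l + 1)), by
      have := f.2 (Fin.last l)
      rw [Fin.succ_last] at this
      exact this.symm⟩⟩
  invFun g := ⟨Fin.snoc (α := fun _ => Fin q) g.1.1 g.2.1, by
    intro i
    refine Fin.lastCases ?_ (fun j => ?_) i
    · rw [Fin.succ_last, Fin.snoc_last, Fin.snoc_castSucc]
      exact g.2.2.symm
    · rw [Fin.succ_castSucc, Fin.snoc_castSucc, Fin.snoc_castSucc]
      exact g.1.2 j⟩
  left_inv f := by
    apply Subtype.ext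
    funext i
    refine Fin.lastCases ?_ (fun j => ?_) i
    · simp
    · simp
  right_inv g := by
    obtain ⟨⟨g, hg⟩, ⟨c, hc⟩⟩ := g
    have e : (fun i : Fin (l + 1) => Fin.snoc (α := fun _ => Fin q) g c i.castSucc) = g := by
      funext i
      rw [Fin.snoc_castSucc]
    have e2 : Fin.snoc (α := fun _ => Fin q) g c (Fin.last (l + 1)) = c := by
      rw [Fin.snoc_last]
    have aux : ∀ (g' : Fin (l + 1) → Fin q) (hg' : ∀ i : Fin l, g' i.castSucc ≠ g' i.succ)
        (c' : Fin q) (hc' : c' ≠ g' (Fin.last l)), g' = g → c' = c →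
        (⟨⟨g', hg'⟩, ⟨c', hc'⟩⟩ : Σ g : Pth q l, {c : Fin q // c ≠ g.1 (Fin.last l)}) =
          ⟨⟨g, hg⟩, ⟨c, hc⟩⟩ := by
      intro g' hg' c' hc' h1 h2
      subst h1
      subst h2
      rfl
    exact aux _ _ _ _ e e2

theorem card_pth (q l : ℕ) (hq : 1 ≤ q) : Fintype.card (Pth q l) = q * (q - 1) ^ l := by
  classical
  induction l with
  | zero =>
    have e : Pth q 0 ≃ Fin q :=
      { toFun := fun f => f.1 0
        invFun := fun c => ⟨fun _ => c, fun i => i.elim0⟩
        left_inv := fun f => by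
          apply Subtype.ext
          funext i
          have hi : i = 0 := Subsingleton.elim (α := Fin 1) i 0
          rw [hi]
        right_inv := fun c => rfl }
    rw [Fintype.card_congr e, Fintype.card_fin]; simp
  | succ l ih =>
    rw [Fintype.card_congr (pthEquiv q l), Fintype.card_sigma]
    have : ∀ g : Pth q l, Fintype.card {c : Fin q // c ≠ g.1 (Fin.last l)} = q - 1 := by
      intro g
      rw [Fintype.card_subtype_compl, Fintype.card_fin]
      simp
    rw [Finset.sum_congr rfl (fun g _ => this g), Finset.sum_const, Finset.card_univ, ih,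
      smul_eq_mul, pow_succ, mul_assoc]

noncomputable def closeEquiv (q l : ℕ) :
    {f : Pth q (l + 1) // f.1 (Fin.last (l + 1)) = f.1 0} ≃
      {g : Pth q l // g.1 (Fin.last l) ≠ g.1 0} where
  toFun f := ⟨⟨fun i => f.1.1 i.castSucc, fun i => by
      have := f.1.2 i.castSucc
      rwa [Fin.succ_castSucc] at this⟩, by
    have := f.1.2 (Fin.last l)
    rw [Fin.succ_last, f.2] at this
    exact this⟩
  invFun g := ⟨⟨Fin.snoc (α := fun _ => Fin q) g.1.1 (g.1.1 0), by
    intro i
    refine Fin.lastCases ?_ (fun j => ?_) i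
    · rw [Fin.succ_last, Fin.snoc_last, Fin.snoc_castSucc]
      exact g.2
    · rw [Fin.succ_castSucc, Fin.snoc_castSucc, Fin.snoc_castSucc]
      exact g.1.2 j⟩, by
    simp only [Fin.snoc_last]
    have : (0 : Fin (l + 1 + 1)) = Fin.castSucc 0 := rfl
    rw [this, Fin.snoc_castSucc]⟩
  left_inv f := by
    apply Subtype.ext
    apply Subtype.ext
    funext i
    refine Fin.lastCases ?_ (fun j => ?_) i
    · simp [f.2]
    · simp
  right_inv g := by
    apply Subtype.ext
    apply Subtype.ext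
    funext i
    simp

theorem card_open (q l : ℕ) (hq : 1 ≤ q) :
    (Nat.card {g : Pth q l // g.1 (Fin.last l) ≠ g.1 0} : ℤ) =
      ((q : ℤ) - 1) ^ (l + 1) + (-1) ^ (l + 1) * ((q : ℤ) - 1) := by
  classical
  induction l with
  | zero =>
    have : Nat.card {g : Pth q 0 // g.1 (Fin.last 0) ≠ g.1 0} = 0 := by
      rw [Nat.card_eq_zero]
      left
      constructor
      rintro ⟨g, hg⟩
      exact hg rfl
    rw [this]
    push_cast
    ring
  | succ l ih =>
    have h1 : Nat.card {f : Pth q (l + 1) // f.1 (Fin.last (l + 1)) = f.1 0} =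
        Nat.card {g : Pth q l // g.1 (Fin.last l) ≠ g.1 0} := Nat.card_congr (closeEquiv q l)
    have h2 : Fintype.card (Pth q (l + 1)) =
        Nat.card {f : Pth q (l + 1) // f.1 (Fin.last (l + 1)) = f.1 0} +
        Nat.card {f : Pth q (l + 1) // f.1 (Fin.last (l + 1)) ≠ f.1 0} := by
      rw [Nat.card_eq_fintype_card, Nat.card_eq_fintype_card, ← Fintype.card_sum]
      exact Fintype.card_congr (Equiv.sumCompl _).symm
    rw [h1, card_pth q (l + 1) hq] at h2
    have h3 : ((q * (q - 1) ^ (l + 1) : ℕ) : ℤ) = (q : ℤ) * ((q : ℤ) - 1) ^ (l + 1) := by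
      push_cast [Nat.cast_sub hq]
      ring
    have h4 : ((q * (q - 1) ^ (l + 1) : ℕ) : ℤ) =
        (Nat.card {g : Pth q l // g.1 (Fin.last l) ≠ g.1 0} : ℤ) +
        (Nat.card {f : Pth q (l + 1) // f.1 (Fin.last (l + 1)) ≠ f.1 0} : ℤ) := by
      exact_mod_cast h2
    rw [h3, ih] at h4
    rw [pow_succ ((q : ℤ) - 1) (l + 1), pow_succ (-1 : ℤ) (l + 1)]
    linear_combination -h4

noncomputable def colEquiv (q m : ℕ) : (SimpleGraph.cycleGraph (m + 3)).Coloring (Fin q) ≃
    {g : Pth q (m + 2) // g.1 (Fin.last (m + 2)) ≠ g.1 0} where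
  toFun c := ⟨⟨fun i => c i, fun i => c.valid (by
      rw [cycle_adj (k := m + 1)]
      left
      rw [Fin.val_castSucc, Fin.val_succ])⟩, c.valid (by
      rw [cycle_adj (k := m + 1)]
      right; right; right
      exact ⟨rfl, rfl⟩)⟩
  invFun g := SimpleGraph.Coloring.mk (fun i => g.1.1 i) (by
    intro a b hab
    rw [cycle_adj (k := m + 1)] at hab
    have key : ∀ a b : Fin (m + 3), a.val + 1 = b.val → g.1.1 a ≠ g.1.1 b := by
      intro a b h
      have hb := b.isLt
      have := g.1.2 ⟨a.val, by omega⟩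
      have e1 : (Fin.castSucc (⟨a.val, by omega⟩ : Fin (m + 2))) = a := Fin.ext rfl
      have e2 : (Fin.succ (⟨a.val, by omega⟩ : Fin (m + 2))) = b := Fin.ext (by
        rw [Fin.val_succ]; exact h)
      rw [e1, e2] at this
      exact this
    rcases hab with h | h | ⟨h1, h2⟩ | ⟨h1, h2⟩
    · exact key a b h
    · exact (key b a h).symm
    · have ea : a = 0 := Fin.ext h1
      have eb : b = Fin.last (m + 2) := Fin.ext h2
      rw [ea, eb]
      exact g.2.symm
    · have ea : b = 0 := Fin.ext h1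
      have eb : a = Fin.last (m + 2) := Fin.ext h2
      rw [ea, eb]
      exact g.2)
  left_inv c := by
    ext i
    rfl
  right_inv g := by
    apply Subtype.ext
    apply Subtype.ext
    funext i
    rfl

/-- **CYC** -/
theorem cyc : S_CYC := by
  intro l q hl hq
  obtain ⟨m, rfl⟩ : ∃ m, l = m + 3 := ⟨l - 3, by omega⟩
  unfold cnt
  rw [Nat.card_congr (colEquiv q m), card_open q (m + 2) hq]

end Pool.Agent.P8H59.RC
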