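import Pool.Agent.P8H59.RC.Hx

/-!
# Project RC, part CMP
-/

set_option autoImplicit false
set_option linter.all false

namespace Pool.Agent.P8H59.RC

open Finset Polynomial
open Pool.Agent.P8H79.RC

theorem cntOn_univ {V : Type} [Fintype V] (G : SimpleGraph V) (q : ℕ) :
    cntOn G Finset.univ q = cnt G q := by
  unfold cntOn
  rw [Finset.coe_univ]
  exact cnt_iso (SimpleGraph.induceUnivIso G) q

/-- the truncated logarithm, second coefficient -/
noncomputable def L2 (P : ℚ[X]) : ℚ := P.coeff 2 - P.coeff 1 ^ 2 / 2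

theorem c1_mul {P Q : ℚ[X]} (hP : P.coeff 0 = 1) (hQ : Q.coeff 0 = 1) :
    (P * Q).coeff 0 = 1 ∧ (P * Q).coeff 1 = P.coeff 1 + Q.coeff 1 ∧ L2 (P * Q) = L2 P + L2 Q := by
  have h0 : (P * Q).coeff 0 = 1 := by rw [Polynomial.mul_coeff_zero, hP, hQ, one_mul]
  have h1 : (P * Q).coeff 1 = P.coeff 1 + Q.coeff 1 := by
    rw [Polynomial.coeff_mul, Finset.Nat.antidiagonal_succ]
    simp [hP, hQ]
    ring
  have h2 : (P * Q).coeff 2 = P.coeff 2 + P.coeff 1 * Q.coeff 1 + Q.coeff 2 := by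
    have e : Finset.HasAntidiagonal.antidiagonal 2 = {((0 : ℕ), (2 : ℕ)), (1, 1), (2, 0)} := by decide
    rw [Polynomial.coeff_mul, e, Finset.sum_insert (by decide), Finset.sum_insert (by decide),
      Finset.sum_singleton]
    simp only [hP, hQ]
    ring
  refine ⟨h0, h1, ?_⟩
  unfold L2
  rw [h1, h2]
  ring

theorem c1_pow {P : ℚ[X]} (hP : P.coeff 0 = 1) (n : ℕ) :
    (P ^ n).coeff 0 = 1 ∧ (P ^ n).coeff 1 = n * P.coeff 1 ∧ L2 (P ^ n) = n * L2 P := by
  induction n with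
  | zero =>
    refine ⟨by simp, by simp [Polynomial.coeff_one], ?_⟩
    unfold L2
    simp [Polynomial.coeff_one]
  | succ n ih =>
    obtain ⟨i0, i1, i2⟩ := ih
    obtain ⟨j0, j1, j2⟩ := c1_mul i0 hP
    rw [pow_succ]
    refine ⟨j0, ?_, ?_⟩
    · rw [j1, i1]; push_cast; ring
    · rw [j2, i2]; push_cast; ring

theorem pow_expand (s : ℚ) (m : ℕ) (hm : 1 ≤ m) (h : ℕ) :
    (X : ℚ[X]) ^ (m + 1) ∣ (1 + C s * X ^ m) ^ h - (1 + C ((h : ℚ) * s) * X ^ m) := by
  induction h with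
  | zero => simp
  | succ h ih =>
    obtain ⟨r, hr⟩ := ih
    refine ⟨r * (1 + C s * X ^ m) + C ((h : ℚ) * s * s) * X ^ (m - 1), ?_⟩
    have e1 : (1 + C s * X ^ m : ℚ[X]) ^ h = X ^ (m + 1) * r + (1 + C ((h : ℚ) * s) * X ^ m) := by
      rw [← hr]; ring
    have e2 : (X : ℚ[X]) ^ (m + 1) * X ^ (m - 1) = X ^ m * X ^ m := by
      rw [← pow_add, ← pow_add]; congr 1; omega
    rw [pow_succ, e1]
    have e3 : (C (((h + 1 : ℕ) : ℚ) * s) : ℚ[X]) = C ((h : ℚ) * s) + C s := by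
      rw [← map_add]; congr 1; push_cast; ring
    have e4 : (C ((h : ℚ) * s * s) : ℚ[X]) = C ((h : ℚ) * s) * C s := by rw [← map_mul]
    rw [e3, e4]
    linear_combination (-(C ((h : ℚ) * s) * C s)) * e2

theorem edges_eq {V : Type} [Fintype V] [DecidableEq V] (hHX : S_HX) (G : SimpleGraph V)
    (w : Finset V → ℚ) (Z : Finset V → Polynomial ℚ) (hZ : ZFam G w Z) (h4 : G.CliqueFree 4) :
    (cl G Finset.univ 2 : ℚ) = - (Z Finset.univ).coeff 1 ∧
    (cl G Finset.univ 3 : ℚ) = - L2 (Z Finset.univ) - (cl G Finset.univ 2 : ℚ) / 2 := by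
  have h := hHX V G w Z hZ h4 4 le_rfl (fun j h1 h2 => by omega)
  set t := cl G Finset.univ 3
  set e := cl G Finset.univ 2
  set h' := holes G 4
  have a0 : ((1 : ℚ[X]) - X).coeff 0 = 1 := by simp
  have a1 : ((1 : ℚ[X]) - X).coeff 1 = -1 := by simp [Polynomial.coeff_one]
  have a2 : L2 ((1 : ℚ[X]) - X) = -1 / 2 := by
    unfold L2; rw [a1]; simp [Polynomial.coeff_one, Polynomial.coeff_X]; norm_num
  have b0 : ((1 : ℚ[X]) - C 2 * X).coeff 0 = 1 := by simp
  have b1 : ((1 : ℚ[X]) - C 2 * X).coeff 1 = -2 := by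
    rw [Polynomial.coeff_sub, Polynomial.coeff_C_mul, Polynomial.coeff_X_one,
      Polynomial.coeff_one]; norm_num
  have b2 : L2 ((1 : ℚ[X]) - C 2 * X) = -2 := by
    unfold L2; rw [b1, Polynomial.coeff_sub, Polynomial.coeff_C_mul, Polynomial.coeff_X,
      Polynomial.coeff_one]; norm_num
  have d0 : ((1 : ℚ[X]) + (-1) ^ 4 * X ^ (4 - 1)).coeff 0 = 1 := by
    norm_num [Polynomial.coeff_X_pow]
  have d1 : ((1 : ℚ[X]) + (-1) ^ 4 * X ^ (4 - 1)).coeff 1 = 0 := by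
    norm_num [Polynomial.coeff_X_pow, Polynomial.coeff_one]
  have d2 : L2 ((1 : ℚ[X]) + (-1) ^ 4 * X ^ (4 - 1)) = 0 := by
    unfold L2; rw [d1]; norm_num [Polynomial.coeff_X_pow, Polynomial.coeff_one]
  have z0 := coeff_zero_Z hZ Finset.univ
  obtain ⟨p0, p1, p2⟩ := c1_pow a0 (2 * t)
  obtain ⟨q0, q1, q2⟩ := c1_mul z0 p0
  obtain ⟨r0, r1, r2⟩ := c1_pow a0 e
  obtain ⟨s0, s1, s2⟩ := c1_pow b0 t
  obtain ⟨u0, u1, u2⟩ := c1_pow d0 h'
  obtain ⟨v0, v1, v2⟩ := c1_mul r0 s0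
  obtain ⟨x0, x1, x2⟩ := c1_mul v0 u0
  rw [Polynomial.X_pow_dvd_iff] at h
  have k1 := h 1 (by norm_num)
  have k2 := h 2 (by norm_num)
  rw [Polynomial.coeff_sub, sub_eq_zero] at k1 k2
  have k3 : L2 (Z Finset.univ * (1 - X) ^ (2 * t)) =
      L2 ((1 - X) ^ e * (1 - C 2 * X) ^ t * (1 + (-1) ^ 4 * X ^ (4 - 1)) ^ h') := by
    unfold L2
    rw [k1, k2]
  rw [q1, x1, v1, p1, r1, s1, u1, a1, b1, d1] at k1
  rw [q2, x2, v2, p2, r2, s2, u2, a2, b2, d2] at k3
  push_cast at k1 k3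
  constructor
  · linarith
  · linarith

theorem holes_same {V W : Type} [Fintype V] [Fintype W] [DecidableEq V] [DecidableEq W]
    (hHX : S_HX) (G : SimpleGraph V) (H : SimpleGraph W)
    (w : Finset V → ℚ) (Z : Finset V → Polynomial ℚ) (hZ : ZFam G w Z) (h4 : G.CliqueFree 4)
    (w' : Finset W → ℚ) (Z' : Finset W → Polynomial ℚ) (hZ' : ZFam H w' Z') (h4' : H.CliqueFree 4)
    (hE : Z Finset.univ = Z' Finset.univ)
    (he : cl G Finset.univ 2 = cl H Finset.univ 2) (ht : cl G Finset.univ 3 = cl H Finset.univ 3)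
    (l : ℕ) (hl : 4 ≤ l)
    (hno : ∀ j, 4 ≤ j → j < l → IsEmpty (SimpleGraph.cycleGraph j ↪g G))
    (hno' : ∀ j, 4 ≤ j → j < l → IsEmpty (SimpleGraph.cycleGraph j ↪g H)) :
    holes G l = holes H l := by
  have h1 := hHX V G w Z hZ h4 l hl hno
  have h2 := hHX W H w' Z' hZ' h4' l hl hno'
  rw [he, ht, hE] at h1
  have h3 := dvd_sub h2 h1
  set A : ℚ[X] := (1 - X) ^ (cl H Finset.univ 2) * (1 - C 2 * X) ^ (cl H Finset.univ 3) with hA
  have h4 : (X : ℚ[X]) ^ l ∣ A * ((1 + (-1) ^ l * X ^ (l - 1)) ^ (holes G l) -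
      (1 + (-1) ^ l * X ^ (l - 1)) ^ (holes H l)) := by
    convert h3 using 1
    ring
  have hA0 : A.coeff 0 ≠ 0 := by
    rw [hA, Polynomial.coeff_zero_eq_eval_zero]
    simp
  have h5 : (X : ℚ[X]) ^ l ∣ (1 + (-1) ^ l * X ^ (l - 1)) ^ (holes G l) -
      (1 + (-1) ^ l * X ^ (l - 1)) ^ (holes H l) := by
    rw [← rho_eq_zero, map_mul] at h4
    rw [← rho_eq_zero]
    exact (rho_unit l hA0).mul_right_eq_zero.mp h4
  have hs : ((-1 : ℚ[X]) ^ l) = C ((-1 : ℚ) ^ l) := by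
    rw [map_pow, map_neg, map_one]
  rw [hs] at h5
  obtain ⟨m, rfl⟩ : ∃ m, l = m + 1 := ⟨l - 1, by omega⟩
  rw [Nat.add_sub_cancel] at h5
  have g1 := pow_expand ((-1 : ℚ) ^ (m + 1)) m (by omega) (holes G (m + 1))
  have g2 := pow_expand ((-1 : ℚ) ^ (m + 1)) m (by omega) (holes H (m + 1))
  have g3 : (X : ℚ[X]) ^ (m + 1) ∣ (C ((holes G (m + 1) : ℚ) * (-1) ^ (m + 1)) -
      C ((holes H (m + 1) : ℚ) * (-1) ^ (m + 1))) * X ^ m := by
    have := dvd_add (dvd_sub g2 g1) h5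
    convert this using 1
    ring
  rw [Polynomial.X_pow_dvd_iff] at g3
  have g4 := g3 m (by omega)
  rw [← map_sub, Polynomial.coeff_C_mul, Polynomial.coeff_X_pow, if_pos rfl, mul_one,
    ← sub_mul] at g4
  have g5 : ((holes G (m + 1) : ℚ) - (holes H (m + 1) : ℚ)) = 0 := by
    rcases mul_eq_zero.mp g4 with h | h
    · exact h
    · exact absurd h (pow_ne_zero _ (by norm_num))
  have g6 : (holes G (m + 1) : ℚ) = (holes H (m + 1) : ℚ) := by linarith
  exact_mod_cast g6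

theorem holes_zero {V : Type} [Fintype V] (G : SimpleGraph V) (l : ℕ)
    (h : IsEmpty (SimpleGraph.cycleGraph l ↪g G)) : holes G l = 0 := by
  classical
  rw [holes_eq]
  unfold hh
  rw [Finset.card_eq_zero, Finset.filter_eq_empty_iff]
  intro S hS hne
  obtain ⟨e⟩ := hne
  exact h.false (e.toEmbedding.trans (SimpleGraph.Embedding.induce _))

theorem isEmpty_of_holes {V : Type} [Fintype V] (G : SimpleGraph V) (l : ℕ)
    (h : holes G l = 0) : IsEmpty (SimpleGraph.cycleGraph l ↪g G) := by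
  classical
  constructor
  intro e
  rw [holes_eq] at h
  unfold hh at h
  rw [Finset.card_eq_zero, Finset.filter_eq_empty_iff] at h
  set T : Finset V := Finset.univ.image e with hT
  have hmem : ∀ i, e i ∈ (T : Set V) := fun i => by
    rw [Finset.mem_coe, hT]
    exact Finset.mem_image_of_mem _ (Finset.mem_univ i)
  have hcard : T.card = l := by
    rw [hT, Finset.card_image_of_injective _ e.injective, Finset.card_univ, Fintype.card_fin]
  let f : Fin l → (T : Set V) := fun i => ⟨e i, hmem i⟩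
  have hf : Function.Injective f := by
    intro i j hij
    exact e.injective (congrArg Subtype.val hij)
  have hb : Function.Bijective f := by
    rw [Fintype.bijective_iff_injective_and_card]
    refine ⟨hf, ?_⟩
    simp [hcard]
  refine h (x := T) ?_ ⟨⟨Equiv.ofBijective f hb, ?_⟩⟩
  · rw [Finset.mem_powersetCard]
    exact ⟨Finset.subset_univ _, hcard⟩
  · intro a b
    exact e.map_rel_iff'

/-- **CMP** -/
theorem cmp (hP : S_POL) (hHX : S_HX) : S_CMP := by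
  classical
  intro V W _ _ G H hG hH hVW hcnt
  obtain ⟨w, Z, hZ⟩ := hP V G
  obtain ⟨w', Z', hZ'⟩ := hP W H
  have hE : Z Finset.univ = Z' Finset.univ := by
    apply poly_ext_inv
    intro q hq
    have h1 := hZ.hcnt Finset.univ q hq
    have h2 := hZ'.hcnt Finset.univ q hq
    rw [cntOn_univ] at h1 h2
    rw [hcnt q, h2, Finset.card_univ, Finset.card_univ, ← hVW] at h1
    have hq0 : (q : ℚ) ≠ 0 := by
      have : (0 : ℚ) < q := by exact_mod_cast hq
      exact this.ne'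
    exact (mul_left_cancel₀ (pow_ne_zero _ hq0) h1).symm
  obtain ⟨a1, a2⟩ := edges_eq hHX G w Z hZ hG
  obtain ⟨b1, b2⟩ := edges_eq hHX H w' Z' hZ' hH
  have he : cl G Finset.univ 2 = cl H Finset.univ 2 := by
    have : (cl G Finset.univ 2 : ℚ) = (cl H Finset.univ 2 : ℚ) := by rw [a1, b1, hE]
    exact_mod_cast this
  have ht : cl G Finset.univ 3 = cl H Finset.univ 3 := by
    have : (cl G Finset.univ 3 : ℚ) = (cl H Finset.univ 3 : ℚ) := by rw [a2, b2, hE, he]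
    exact_mod_cast this
  refine ⟨he, ht, fun N hN => ?_⟩
  intro j
  induction j using Nat.strong_induction_on with
  | _ j ih =>
    intro hj4 hjN
    apply isEmpty_of_holes
    rw [holes_same hHX G H w Z hZ hG w' Z' hZ' hH hE he ht j hj4
      (fun i h1 h2 => ih i h2 h1 (by omega)) (fun i h1 h2 => hN i h1 (by omega))]
    exact holes_zero H j (hN j hj4 hjN)

end Pool.Agent.P8H59.RC
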