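import Pool.Agent.P8H79.RC.Stm

/-!
# Project RC, part HX: the expansion of the chromatic polynomial
-/

set_option autoImplicit false
set_option linter.all false

namespace Pool.Agent.P8H59.RC

open Finset Polynomial
open Pool.Agent.P8H79.RC
open Pool.Agent.H255R3.STC (IsChordal cycle_adj)

/-- multiplicative Moebius inversion -/
theorem mob {V M : Type*} [DecidableEq V] [CommMonoid M] (T : Finset V) : ∀ g : Finset V → M,
    ∏ U ∈ T.powerset.filter (fun U => Even (T.card - U.card)), ∏ W ∈ U.powerset, g W =
    (∏ U ∈ T.powerset.filter (fun U => ¬ Even (T.card - U.card)), ∏ W ∈ U.powerset, g W) * g T := by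
  induction T using Finset.induction_on with
  | empty => intro g; simp [Finset.filter_singleton]
  | insert a T ha ih =>
    intro g
    have hF : ∀ U ∈ T.powerset, ∏ W ∈ (insert a U).powerset, g W =
        (∏ W ∈ U.powerset, g W) * ∏ W ∈ U.powerset, g (insert a W) := by
      intro U hU
      rw [Finset.mem_powerset] at hU
      exact Finset.prod_powerset_insert (fun h => ha (hU h)) g
    have h1 := ih g
    have h2 := ih (fun W => g (insert a W))
    rw [Finset.prod_filter, Finset.prod_filter] at h1 h2 ⊢
    rw [Finset.prod_powerset_insert ha, Finset.prod_powerset_insert ha]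
    have e1 : ∏ U ∈ T.powerset, (if Even ((insert a T).card - U.card) then
        ∏ W ∈ U.powerset, g W else 1) = ∏ U ∈ T.powerset, (if ¬ Even (T.card - U.card) then
        ∏ W ∈ U.powerset, g W else 1) := by
      refine Finset.prod_congr rfl fun U hU => ?_
      have hc := Finset.card_le_card (Finset.mem_powerset.mp hU)
      have : Even ((insert a T).card - U.card) ↔ ¬ Even (T.card - U.card) := by
        rw [Finset.card_insert_of_notMem ha, Nat.succ_sub hc, Nat.even_add_one]
      simp only [this]
    have e2 : ∏ U ∈ T.powerset, (if ¬ Even ((insert a T).card - U.card) then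
        ∏ W ∈ U.powerset, g W else 1) = ∏ U ∈ T.powerset, (if Even (T.card - U.card) then
        ∏ W ∈ U.powerset, g W else 1) := by
      refine Finset.prod_congr rfl fun U hU => ?_
      have hc := Finset.card_le_card (Finset.mem_powerset.mp hU)
      have : ¬ Even ((insert a T).card - U.card) ↔ Even (T.card - U.card) := by
        rw [Finset.card_insert_of_notMem ha, Nat.succ_sub hc, Nat.even_add_one, not_not]
      simp only [this]
    have e3 : ∏ U ∈ T.powerset, (if Even ((insert a T).card - (insert a U).card) then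
        ∏ W ∈ (insert a U).powerset, g W else 1) =
        (∏ U ∈ T.powerset, (if Even (T.card - U.card) then ∏ W ∈ U.powerset, g W else 1)) *
        ∏ U ∈ T.powerset, (if Even (T.card - U.card) then
          ∏ W ∈ U.powerset, g (insert a W) else 1) := by
      rw [← Finset.prod_mul_distrib]
      refine Finset.prod_congr rfl fun U hU => ?_
      have haU : a ∉ U := fun h => ha (Finset.mem_powerset.mp hU h)
      rw [Finset.card_insert_of_notMem ha, Finset.card_insert_of_notMem haU,
        Nat.add_sub_add_right, hF U hU]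
      split_ifs <;> simp
    have e4 : ∏ U ∈ T.powerset, (if ¬ Even ((insert a T).card - (insert a U).card) then
        ∏ W ∈ (insert a U).powerset, g W else 1) =
        (∏ U ∈ T.powerset, (if ¬ Even (T.card - U.card) then ∏ W ∈ U.powerset, g W else 1)) *
        ∏ U ∈ T.powerset, (if ¬ Even (T.card - U.card) then
          ∏ W ∈ U.powerset, g (insert a W) else 1) := by
      rw [← Finset.prod_mul_distrib]
      refine Finset.prod_congr rfl fun U hU => ?_
      have haU : a ∉ U := fun h => ha (Finset.mem_powerset.mp hU h)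
      rw [Finset.card_insert_of_notMem ha, Finset.card_insert_of_notMem haU,
        Nat.add_sub_add_right, hF U hU]
      split_ifs <;> simp
    rw [e1, e2, e3, e4, h2]
    ac_rfl

section ring

variable (l : ℕ)

/-- power series modulo `X ^ l` -/
abbrev AA : Type := PowerSeries ℚ ⧸ Ideal.span {(PowerSeries.X : PowerSeries ℚ) ^ l}

noncomputable def pi : PowerSeries ℚ →+* AA l := Ideal.Quotient.mk _

noncomputable def rho : ℚ[X] →+* AA l := (pi l).comp Polynomial.coeToPowerSeries.ringHom

theorem rho_apply (P : ℚ[X]) : rho l P = pi l (P : PowerSeries ℚ) := rfl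

theorem pi_eq_zero {f : PowerSeries ℚ} : pi l f = 0 ↔ (PowerSeries.X : PowerSeries ℚ) ^ l ∣ f := by
  rw [pi, Ideal.Quotient.eq_zero_iff_mem, Ideal.mem_span_singleton]

theorem rho_eq_zero {P : ℚ[X]} : rho l P = 0 ↔ (X : ℚ[X]) ^ l ∣ P := by
  rw [rho_apply, pi_eq_zero, PowerSeries.X_pow_dvd_iff, Polynomial.X_pow_dvd_iff]
  simp only [Polynomial.coeff_coe]

theorem rho_unit {P : ℚ[X]} (h : P.coeff 0 ≠ 0) : IsUnit (rho l P) := by
  rw [rho_apply]
  apply IsUnit.map
  rw [PowerSeries.isUnit_iff_constantCoeff, Polynomial.constantCoeff_coe]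
  exact h.isUnit

theorem rho_X_pow : rho l ((X : ℚ[X]) ^ l) = 0 := (rho_eq_zero l).mpr dvd_rfl

end ring

theorem one_sub_X_coeff : ((1 : ℚ[X]) - X).coeff 0 ≠ 0 := by simp

/-- inverse of `1 - X` -/
noncomputable def yy (l : ℕ) : AA l := (((rho_unit l one_sub_X_coeff).unit⁻¹ : (AA l)ˣ) : AA l)

theorem yy_mul (l : ℕ) : rho l (1 - X) * yy l = 1 := by
  unfold yy
  exact (rho_unit l one_sub_X_coeff).mul_val_inv

open Classical in
/-- the local factors -/
noncomputable def lam {V : Type} (G : SimpleGraph V) (l : ℕ) (W : Finset V) : AA l :=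
  (if W.card = 2 ∧ G.IsClique (W : Set V) then rho l (1 - X) else 1) *
  (if W.card = 3 ∧ G.IsClique (W : Set V) then rho l (1 - C 2 * X) * yy l ^ 2 else 1) *
  (if W.card = l ∧ Nonempty (SimpleGraph.cycleGraph l ≃g G.induce (W : Set V)) then
    rho l (1 + (-1) ^ l * X ^ (l - 1)) else 1)

open Classical in
/-- the number of holes inside -/
noncomputable def hh {V : Type} (G : SimpleGraph V) (l : ℕ) (T : Finset V) : ℕ :=
  ((T.powersetCard l).filter
    (fun S : Finset V => Nonempty (SimpleGraph.cycleGraph l ≃g G.induce (↑S : Set V)))).card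

open Classical in
theorem coe_aux {V : Type} (P : Finset (Finset V)) :
    (do let a ← P; pure (↑a : Set V) : Finset (Set V)) = P.image (fun a : Finset V => (a : Set V)) := by
  ext S
  simp [Finset.bind_def, Finset.pure_def, eq_comm]

open Classical in
theorem cl_eq {V : Type} (G : SimpleGraph V) (T : Finset V) (k : ℕ) :
    cl G T k = ((T.powersetCard k).filter (fun S : Finset V => G.IsClique (↑S : Set V))).card := by
  unfold cl
  first
  | rfl
  | (rw [coe_aux, Finset.filter_image, Finset.card_image_of_injective _ Finset.coe_injective]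
     congr 1
     ext S
     simp only [Finset.mem_filter])

open Classical in
theorem holes_eq {V : Type} [Fintype V] (G : SimpleGraph V) (l : ℕ) :
    holes G l = hh G l Finset.univ := by
  unfold holes hh
  first
  | rfl
  | rw [coe_aux, Finset.filter_image, Finset.card_image_of_injective _ Finset.coe_injective]

theorem key_aux {V M : Type*} [CommMonoid M] (T : Finset V) (k : ℕ) (p : Finset V → Prop)
    [i1 : DecidablePred p] [i2 : DecidablePred (fun W : Finset V => W.card = k ∧ p W)] (a : M) :
    ∏ W ∈ T.powerset, (if W.card = k ∧ p W then a else 1) =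
      a ^ ((T.powersetCard k).filter p).card := by
  rw [Finset.prod_ite, Finset.prod_const_one, mul_one, Finset.prod_const]
  congr 2
  ext W
  simp only [Finset.mem_filter, Finset.mem_powerset, Finset.mem_powersetCard]
  tauto

theorem prod_lam {V : Type} [DecidableEq V] (G : SimpleGraph V) (l : ℕ) (T : Finset V) :
    ∏ W ∈ T.powerset, lam G l W = rho l (1 - X) ^ (cl G T 2) *
      (rho l (1 - C 2 * X) * yy l ^ 2) ^ (cl G T 3) *
      rho l (1 + (-1) ^ l * X ^ (l - 1)) ^ (hh G l T) := by
  unfold lam
  rw [Finset.prod_mul_distrib, Finset.prod_mul_distrib, cl_eq, cl_eq]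
  unfold hh
  congr 1
  · congr 1
    · exact key_aux (i1 := _) (i2 := _) _ _ _ _
    · exact key_aux (i1 := _) (i2 := _) _ _ _ _
  · exact key_aux (i1 := _) (i2 := _) _ _ _ _

theorem coeff_zero_Z {V : Type} [Fintype V] [DecidableEq V] {G : SimpleGraph V} {w : Finset V → ℚ}
    {Z : Finset V → Polynomial ℚ} (hZ : ZFam G w Z) (T : Finset V) : (Z T).coeff 0 = 1 := by
  induction T using Finset.strongInduction with
  | H T ih =>
    rcases T.eq_empty_or_nonempty with rfl | ⟨v, hv⟩
    · rw [hZ.one]; simp
    · rw [hZ.hrec T v hv, Polynomial.finset_sum_coeff]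
      rw [Finset.sum_eq_single {v}]
      · rw [hZ.w1]
        simp only [Finset.card_singleton, Nat.sub_self, pow_zero, mul_one, map_one, one_mul]
        exact ih _ (Finset.sdiff_ssubset (Finset.singleton_subset_iff.mpr hv)
          (Finset.singleton_nonempty v))
      · intro U hU hne
        rw [Finset.mem_filter, Finset.mem_powerset] at hU
        have hc : U.card - 1 ≠ 0 := by
          have h1 : 1 < U.card := by
            by_contra hle
            push Not at hle
            apply hne
            have h2 : U.card = 1 := le_antisymm hle (Finset.card_pos.mpr ⟨v, hU.2⟩)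
            rw [Finset.card_eq_one] at h2
            obtain ⟨u, rfl⟩ := h2
            have := hU.2
            rw [Finset.mem_singleton] at this
            rw [this]
          omega
        rw [mul_assoc, Polynomial.coeff_C_mul, Polynomial.mul_coeff_zero,
          Polynomial.coeff_X_pow, if_neg (Ne.symm hc)]
        ring
      · intro h
        exact absurd (Finset.mem_filter.mpr ⟨Finset.mem_powerset.mpr
          (Finset.singleton_subset_iff.mpr hv), Finset.mem_singleton_self v⟩) h

/-- an embedding of a cycle into an induced subgraph -/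
theorem emb_induce {V : Type} {G : SimpleGraph V} {T : Finset V} {j : ℕ}
    (e : SimpleGraph.cycleGraph j ↪g G.induce (T : Set V)) :
    Nonempty (SimpleGraph.cycleGraph j ↪g G) ∧ j ≤ T.card := by
  refine ⟨⟨e.trans (SimpleGraph.Embedding.induce _)⟩, ?_⟩
  have h1 := Fintype.card_le_of_injective _ e.injective
  simpa using h1

theorem no_hole_of_chordal {V : Type} [DecidableEq V] {G : SimpleGraph V} {T : Finset V} {l : ℕ}
    (hl : 4 ≤ l) (h : IsChordal (G.induce (T : Set V))) : hh G l T = 0 := by
  classical
  unfold hh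
  rw [Finset.card_eq_zero, Finset.filter_eq_empty_iff]
  intro W hW hne
  rw [Finset.mem_powersetCard] at hW
  obtain ⟨e⟩ := hne
  refine (h l hl).false ?_
  exact e.toEmbedding.trans (SimpleGraph.induceHomOfLE (G := G)
    (s := (W : Set V)) (s' := (T : Set V)) (by exact_mod_cast hW.1))

/-- colourings are transported by isomorphisms -/
theorem cnt_iso {V W : Type} {G : SimpleGraph V} {H : SimpleGraph W} (e : G ≃g H) (q : ℕ) :
    cnt G q = cnt H q := by
  unfold cnt
  refine Nat.card_congr ⟨fun c => c.comp e.symm.toHom, fun c => c.comp e.toHom, ?_, ?_⟩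
  · intro c
    ext v
    simp
  · intro c
    ext v
    simp

/-- two polynomials with the same values at the `1 / q` -/
theorem poly_ext_inv {P Q : ℚ[X]} (h : ∀ q : ℕ, 1 ≤ q → P.eval (1 / (q : ℚ)) = Q.eval (1 / (q : ℚ))) :
    P = Q := by
  apply Polynomial.eq_of_infinite_eval_eq
  refine Set.Infinite.mono (s := Set.range (fun n : ℕ => 1 / ((n : ℚ) + 1))) ?_ ?_
  · rintro _ ⟨n, rfl⟩
    have := h (n + 1) (by omega)
    push_cast at this
    exact this
  · apply Set.infinite_range_of_injective
    intro a b hab
    simp only [one_div, inv_inj, add_left_inj, Nat.cast_inj] at hab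
    exact hab

/-- the chromatic polynomial of a cycle -/
theorem Z_cycle {V : Type} [Fintype V] [DecidableEq V] {G : SimpleGraph V} {w : Finset V → ℚ}
    {Z : Finset V → Polynomial ℚ} (hZ : ZFam G w Z) (hC : S_CYC) {T : Finset V} {l : ℕ}
    (hl : 4 ≤ l) (hT : T.card = l)
    (e : SimpleGraph.cycleGraph l ≃g G.induce (T : Set V)) :
    Z T = (1 - X) ^ l + (-1) ^ l * (X ^ (l - 1) - X ^ l) := by
  apply poly_ext_inv
  intro q hq
  have hq0 : (q : ℚ) ≠ 0 := by
    have : (0 : ℚ) < q := by exact_mod_cast hq
    exact this.ne'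
  have h1 := hZ.hcnt T q hq
  have h2 : cntOn G T q = cnt (SimpleGraph.cycleGraph l) q := (cnt_iso e q).symm
  have h3 := hC l q (by omega) hq
  rw [h2, hT] at h1
  have h4 : (cnt (SimpleGraph.cycleGraph l) q : ℚ) = ((q : ℚ) - 1) ^ l + (-1) ^ l * ((q : ℚ) - 1) := by
    exact_mod_cast h3
  rw [h4] at h1
  have hql : (q : ℚ) ^ l ≠ 0 := pow_ne_zero _ hq0
  have h5 : (Z T).eval (1 / (q : ℚ)) = (((q : ℚ) - 1) ^ l + (-1) ^ l * ((q : ℚ) - 1)) / (q : ℚ) ^ l := by
    rw [h1]; field_simp
  rw [h5]
  simp only [eval_add, eval_pow, eval_sub, eval_one, eval_X, eval_mul, eval_neg]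
  obtain ⟨m, rfl⟩ : ∃ m, l = m + 1 := ⟨l - 1, by omega⟩
  rw [Nat.add_sub_cancel]
  have e1 : (1 - 1 / (q : ℚ)) = ((q : ℚ) - 1) / q := by field_simp
  rw [e1, div_pow, div_pow, div_pow, one_pow, one_pow]
  field_simp
  ring

/-- edges and triangles of a cycle -/
theorem cl_cycle {V : Type} {G : SimpleGraph V} {T : Finset V} {l : ℕ}
    (hl : 4 ≤ l) (hT : T.card = l)
    (e : SimpleGraph.cycleGraph l ≃g G.induce (T : Set V)) :
    cl G T 2 = l ∧ cl G T 3 = 0 := by
  classical
  obtain ⟨m, rfl⟩ : ∃ m, l = m + 4 := ⟨l - 4, by omega⟩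
  set φ : Fin (m + 4) → V := fun i => (e i : V) with hφ
  have hinj : Function.Injective φ := fun i j h => e.injective (Subtype.ext h)
  have hadj : ∀ i j, G.Adj (φ i) (φ j) ↔ (SimpleGraph.cycleGraph (m + 4)).Adj i j := by
    intro i j
    have := e.map_rel_iff' (a := i) (b := j)
    rw [← this]
    simp [hφ, SimpleGraph.comap_adj]
  have hmem : ∀ i, φ i ∈ T := fun i => by
    have := (e i).2
    exact_mod_cast this
  have hsurj : ∀ v ∈ T, ∃ i, φ i = v := by
    intro v hv
    obtain ⟨i, hi⟩ := e.surjective ⟨v, by exact_mod_cast hv⟩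
    exact ⟨i, by rw [hφ]; simp only; rw [hi]⟩
  let nx : Fin (m + 4) → Fin (m + 4) := fun i =>
    ⟨if i.val = m + 3 then 0 else i.val + 1, by have := i.isLt; split_ifs <;> omega⟩
  have hnx : ∀ i, (nx i).val = if i.val = m + 3 then 0 else i.val + 1 := fun i => rfl
  have hadj' : ∀ i j, G.Adj (φ i) (φ j) ↔ (j = nx i ∨ i = nx j) := by
    intro i j
    rw [hadj, cycle_adj (k := m + 2) i j, Fin.ext_iff, Fin.ext_iff, hnx, hnx]
    have hi := i.isLt
    have hj := j.isLt
    split_ifs <;> omega
  have hne : ∀ i, i ≠ nx i := by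
    intro i h
    rw [Fin.ext_iff, hnx] at h
    have hi := i.isLt
    split_ifs at h <;> omega
  constructor
  · rw [cl_eq]
    have himg : (T.powersetCard 2).filter (fun S : Finset V => G.IsClique (↑S : Set V)) =
        (Finset.univ : Finset (Fin (m + 4))).image (fun i => {φ i, φ (nx i)}) := by
      ext S
      rw [Finset.mem_filter, Finset.mem_powersetCard, Finset.mem_image]
      constructor
      · rintro ⟨⟨hS, hc⟩, hcl⟩
        obtain ⟨x, y, hxy, rfl⟩ := Finset.card_eq_two.mp hc
        obtain ⟨i, rfl⟩ := hsurj x (hS (by simp))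
        obtain ⟨j, rfl⟩ := hsurj y (hS (by simp))
        have a1 : G.Adj (φ i) (φ j) := hcl (by simp) (by simp) hxy
        rcases (hadj' i j).mp a1 with rfl | rfl
        · exact ⟨i, Finset.mem_univ _, rfl⟩
        · exact ⟨j, Finset.mem_univ _, Finset.pair_comm _ _⟩
      · rintro ⟨i, _, rfl⟩
        have h1 : φ i ≠ φ (nx i) := fun h => hne i (hinj h)
        have h2 : G.Adj (φ i) (φ (nx i)) := (hadj' i (nx i)).mpr (Or.inl rfl)
        refine ⟨⟨?_, Finset.card_pair h1⟩, ?_⟩
        · intro v hv
          rw [Finset.mem_insert, Finset.mem_singleton] at hv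
          rcases hv with rfl | rfl
          · exact hmem _
          · exact hmem _
        · intro a ha b hb hab
          simp only [Finset.coe_insert, Finset.coe_singleton, Set.mem_insert_iff,
            Set.mem_singleton_iff] at ha hb
          rcases ha with rfl | rfl <;> rcases hb with rfl | rfl
          · exact absurd rfl hab
          · exact h2
          · exact h2.symm
          · exact absurd rfl hab
    have hcard : ((Finset.univ : Finset (Fin (m + 4))).image
        (fun i => ({φ i, φ (nx i)} : Finset V))).card = m + 4 := by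
      rw [Finset.card_image_of_injective, Finset.card_univ, Fintype.card_fin]
      intro i j hij
      simp only at hij
      have h1 : φ i ∈ ({φ j, φ (nx j)} : Finset V) := by rw [← hij]; simp
      have h2 : φ (nx i) ∈ ({φ j, φ (nx j)} : Finset V) := by rw [← hij]; simp
      rw [Finset.mem_insert, Finset.mem_singleton] at h1 h2
      rcases h1 with h1 | h1
      · exact hinj h1
      · rcases h2 with h2 | h2
        · exfalso
          have b1 := hinj h1
          have b2 := hinj h2
          rw [Fin.ext_iff, hnx] at b1 b2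
          have hi := i.isLt
          have hj := j.isLt
          split_ifs at b1 b2 <;> omega
        · exfalso
          have b1 := hinj h1
          have b2 := hinj h2
          exact hne i (b1.trans b2.symm)
    convert hcard using 2
  · rw [cl_eq, Finset.card_eq_zero, Finset.filter_eq_empty_iff]
    intro S hS hcl
    rw [Finset.mem_powersetCard] at hS
    obtain ⟨x, y, z, hxy, hxz, hyz, rfl⟩ := Finset.card_eq_three.mp hS.2
    obtain ⟨i, rfl⟩ := hsurj x (hS.1 (by simp))
    obtain ⟨j, rfl⟩ := hsurj y (hS.1 (by simp))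
    obtain ⟨k, rfl⟩ := hsurj z (hS.1 (by simp))
    have a1 : G.Adj (φ i) (φ j) := hcl (by simp) (by simp) hxy
    have a2 : G.Adj (φ i) (φ k) := hcl (by simp) (by simp) hxz
    have a3 : G.Adj (φ j) (φ k) := hcl (by simp) (by simp) hyz
    rw [hadj] at a1 a2 a3
    have b1 := (cycle_adj (k := m + 2) i j).mp a1
    have b2 := (cycle_adj (k := m + 2) i k).mp a2
    have b3 := (cycle_adj (k := m + 2) j k).mp a3
    have hi := i.isLt
    have hj := j.isLt
    have hk := k.isLt
    omega

/-- the expansion modulo `X ^ l`, for all induced subgraphs -/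
theorem expand {V : Type} [Fintype V] [DecidableEq V] (hKB : S_KB) (hCHO : S_CHO) (hCYC : S_CYC)
    (G : SimpleGraph V) (w : Finset V → ℚ) (Z : Finset V → Polynomial ℚ) (hZ : ZFam G w Z)
    (h4 : G.CliqueFree 4) (l : ℕ) (hl : 4 ≤ l)
    (hno : ∀ j, 4 ≤ j → j < l → IsEmpty (SimpleGraph.cycleGraph j ↪g G)) (T : Finset V) :
    rho l (Z T) = ∏ W ∈ T.powerset, lam G l W := by
  classical
  have hzu : ∀ U, IsUnit (rho l (Z U)) := fun U => rho_unit l (by rw [coeff_zero_Z hZ]; exact one_ne_zero)
  induction T using Finset.strongInduction with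
  | H T ih =>
    by_cases hch : IsChordal (G.induce (T : Set V))
    · -- chordal
      have h1 := hCHO V G w Z hZ h4 T hch
      have h2 := congrArg (rho l) h1
      rw [prod_lam, no_hole_of_chordal hl hch, pow_zero, mul_one]
      simp only [map_mul, map_pow] at h2
      have hy := yy_mul l
      have e1 : rho l (1 - X) ^ (2 * cl G T 3) * yy l ^ (2 * cl G T 3) = 1 := by
        rw [← mul_pow, hy, one_pow]
      calc rho l (Z T) = rho l (Z T) * (rho l (1 - X) ^ (2 * cl G T 3) * yy l ^ (2 * cl G T 3)) := by
            rw [e1, mul_one]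
        _ = (rho l (Z T) * rho l (1 - X) ^ (2 * cl G T 3)) * yy l ^ (2 * cl G T 3) := by ring
        _ = (rho l (1 - X) ^ (cl G T 2) * rho l (1 - C 2 * X) ^ (cl G T 3)) *
            yy l ^ (2 * cl G T 3) := by rw [h2]
        _ = _ := by rw [mul_pow, ← pow_mul]; ring
    · -- there is an induced cycle
      unfold IsChordal at hch
      push Not at hch
      obtain ⟨j, hj4, hj⟩ := hch
      obtain ⟨e⟩ := hj
      obtain ⟨⟨e'⟩, hjT⟩ := emb_induce e
      have hjl : l ≤ j := by
        by_contra hlt
        push Not at hlt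
        exact (hno j hj4 hlt).false e'
      rcases Nat.lt_or_ge l T.card with hTl | hTl
      · -- more than `l` vertices
        have hkb := hKB V w (fun U => (Z U : PowerSeries ℚ)) (by
            show ((Z ∅ : ℚ[X]) : PowerSeries ℚ) = 1
            rw [hZ.one]; simp) hZ.w1 (by
            intro T v hv
            show ((Z T : ℚ[X]) : PowerSeries ℚ) = _
            rw [hZ.hrec T v hv, ← Polynomial.coeToPowerSeries.ringHom_apply, map_sum]
            refine Finset.sum_congr rfl fun U _ => ?_
            rw [map_mul, map_mul, map_pow]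
            simp only [Polynomial.coeToPowerSeries.ringHom_apply, Polynomial.coe_C,
              Polynomial.coe_X]) T
        have h0 : pi l ((∏ U ∈ T.powerset.filter (fun U => Even (T.card - U.card)),
            (Z U : PowerSeries ℚ)) - ∏ U ∈ T.powerset.filter (fun U => ¬ Even (T.card - U.card)),
            (Z U : PowerSeries ℚ)) = 0 := by
          rw [pi_eq_zero]
          exact (pow_dvd_pow _ (by omega)).trans hkb
        rw [map_sub, sub_eq_zero, map_prod, map_prod] at h0
        have h0' : ∏ U ∈ T.powerset.filter (fun U => Even (T.card - U.card)), rho l (Z U) =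
            ∏ U ∈ T.powerset.filter (fun U => ¬ Even (T.card - U.card)), rho l (Z U) := h0
        have hTmem : T ∈ T.powerset.filter (fun U => Even (T.card - U.card)) := by
          rw [Finset.mem_filter, Finset.mem_powerset]
          exact ⟨Finset.Subset.refl T, by simp⟩
        have hm := mob T (lam G l)
        have hlamT : lam G l T = 1 := by
          unfold lam
          rw [if_neg (by rintro ⟨h, _⟩; omega), if_neg (by rintro ⟨h, _⟩; omega),
            if_neg (by rintro ⟨h, _⟩; omega)]
          ring
        rw [hlamT, mul_one, ← Finset.mul_prod_erase _ _ hTmem] at hm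
        rw [← Finset.mul_prod_erase _ _ hTmem] at h0'
        have e1 : ∏ U ∈ (T.powerset.filter (fun U => Even (T.card - U.card))).erase T,
            rho l (Z U) = ∏ U ∈ (T.powerset.filter (fun U => Even (T.card - U.card))).erase T,
            ∏ W ∈ U.powerset, lam G l W := by
          refine Finset.prod_congr rfl fun U hU => ih U ?_
          rw [Finset.mem_erase, Finset.mem_filter, Finset.mem_powerset] at hU
          exact Finset.ssubset_iff_subset_ne.mpr ⟨hU.2.1, hU.1⟩
        have e2 : ∏ U ∈ T.powerset.filter (fun U => ¬ Even (T.card - U.card)), rho l (Z U) =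
            ∏ U ∈ T.powerset.filter (fun U => ¬ Even (T.card - U.card)),
              ∏ W ∈ U.powerset, lam G l W := by
          refine Finset.prod_congr rfl fun U hU => ih U ?_
          rw [Finset.mem_filter, Finset.mem_powerset] at hU
          refine Finset.ssubset_iff_subset_ne.mpr ⟨hU.1, ?_⟩
          rintro rfl
          exact hU.2 (by simp)
        have hunit : IsUnit (∏ U ∈ (T.powerset.filter (fun U => Even (T.card - U.card))).erase T,
            rho l (Z U)) := by
          refine Finset.prod_induction _ IsUnit (fun a b => IsUnit.mul) isUnit_one ?_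
          intro U _
          exact hzu U
        rw [e2, ← hm, ← e1] at h0'
        exact hunit.mul_right_cancel h0'
      · -- a hole
        have hTcard : T.card = l := le_antisymm hTl (hjl.trans hjT)
        have hjeq : j = l := by omega
        subst hjeq
        have hbij : Function.Bijective e := by
          rw [Fintype.bijective_iff_injective_and_card]
          refine ⟨e.injective, ?_⟩
          simp [hTcard]
        let e2 : SimpleGraph.cycleGraph j ≃g G.induce (T : Set V) :=
          ⟨Equiv.ofBijective e hbij, by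
            intro a b
            exact e.map_rel_iff'⟩
        obtain ⟨c2, c3⟩ := cl_cycle hl hTcard e2
        have hh1 : hh G j T = 1 := by
          unfold hh
          rw [Finset.card_eq_one]
          refine ⟨T, ?_⟩
          ext S
          rw [Finset.mem_filter, Finset.mem_powersetCard, Finset.mem_singleton]
          constructor
          · rintro ⟨⟨h1, h2⟩, _⟩
            exact Finset.eq_of_subset_of_card_le h1 (by omega)
          · rintro rfl
            exact ⟨⟨Finset.Subset.refl _, hTcard⟩, ⟨e2⟩⟩
        rw [prod_lam, c2, c3, hh1, Z_cycle hZ hCYC hl hTcard e2, pow_zero, mul_one, pow_one]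
        have hx : rho j ((X : ℚ[X]) ^ j) = 0 := rho_X_pow j
        have hx2 : rho j ((1 - X) ^ j * X ^ (j - 1)) = rho j (X ^ (j - 1)) := by
          rw [← sub_eq_zero, ← map_sub, rho_eq_zero]
          have h1 : (X : ℚ[X]) ∣ (1 - X) ^ j - 1 := by
            have := sub_dvd_pow_sub_pow ((1 : ℚ[X]) - X) 1 j
            rw [one_pow] at this
            refine dvd_trans ?_ this
            exact ⟨-1, by ring⟩
          obtain ⟨r, hr⟩ := h1
          refine ⟨r, ?_⟩
          have h2 : (X : ℚ[X]) ^ j = X ^ (j - 1) * X := by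
            rw [← pow_succ]; congr 1; omega
          rw [h2]
          linear_combination (X : ℚ[X]) ^ (j - 1) * hr
        have hx3 : rho j (1 - X) ^ j * rho j (X ^ (j - 1)) = rho j (X ^ (j - 1)) := by
          rw [← map_pow, ← map_mul]; exact hx2
        have e3 : rho j ((1 - X) ^ j + (-1) ^ j * (X ^ (j - 1) - X ^ j)) =
            rho j (1 - X) ^ j + (-1) ^ j * (rho j (X ^ (j - 1)) - rho j (X ^ j)) := by
          simp only [map_add, map_mul, map_sub, map_pow, map_neg, map_one]
        have e4 : rho j (1 + (-1) ^ j * X ^ (j - 1)) = 1 + (-1) ^ j * rho j (X ^ (j - 1)) := by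
          simp only [map_add, map_mul, map_pow, map_neg, map_one]
        rw [e3, e4, hx, mul_add, mul_one]
        have e5 : rho j (1 - X) ^ j * ((-1) ^ j * rho j (X ^ (j - 1))) =
            (-1) ^ j * (rho j (1 - X) ^ j * rho j (X ^ (j - 1))) := by ring
        rw [e5, hx3]
        ring

/-- **HX** -/
theorem hx (hKB : S_KB) (hCHO : S_CHO) (hCYC : S_CYC) : S_HX := by
  intro V _ _ G w Z hZ h4 l hl hno
  have h1 := expand hKB hCHO hCYC G w Z hZ h4 l hl hno Finset.univ
  rw [prod_lam, ← holes_eq] at h1
  rw [← rho_eq_zero, map_sub, sub_eq_zero]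
  simp only [map_mul, map_pow] at h1 ⊢
  rw [h1]
  have e1 : yy l ^ (2 * cl G Finset.univ 3) * rho l (1 - X) ^ (2 * cl G Finset.univ 3) = 1 := by
    rw [← mul_pow, mul_comm, yy_mul, one_pow]
  calc rho l (1 - X) ^ cl G Finset.univ 2 * (rho l (1 - C 2 * X) * yy l ^ 2) ^ cl G Finset.univ 3 *
        rho l (1 + (-1) ^ l * X ^ (l - 1)) ^ holes G l * rho l (1 - X) ^ (2 * cl G Finset.univ 3) =
      rho l (1 - X) ^ cl G Finset.univ 2 * rho l (1 - C 2 * X) ^ cl G Finset.univ 3 *
        rho l (1 + (-1) ^ l * X ^ (l - 1)) ^ holes G l *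
        (yy l ^ (2 * cl G Finset.univ 3) * rho l (1 - X) ^ (2 * cl G Finset.univ 3)) := by
        rw [mul_pow, ← pow_mul]; ring
    _ = _ := by rw [e1, mul_one]

end Pool.Agent.P8H59.RC
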